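import Mathlib
import Pool.Agent.Novik.Assembly
import Pool.Agent.Novik.Exc
import Pool.Agent.Novik.Smooth

/-!
# The exceptional directions of a generic Fermi surface have dimension at most `5/3`
(MP_590607_an)
-/

set_option autoImplicit false

open Filter MeasureTheory
open scoped ContDiff

namespace Pool.Agent.Results.MP_590607_an.FiveThirds

open Pool.Agent.Novik

/-- `C^∞(T³, ℝ)`: smooth `ℤ³`-periodic functions on `ℝ³` -/
def SmoothPer : Type := {ε : E3 → ℝ // ContDiff ℝ ∞ ε ∧ IsPeriodic ε}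

/-- the `C^∞` topology: uniform convergence of the derivatives of all orders -/
noncomputable instance : TopologicalSpace SmoothPer :=
  ⨅ n : ℕ, TopologicalSpace.induced
    (fun ε : SmoothPer => UniformFun.ofFun (iteratedFDeriv ℝ n ε.1)) inferInstance

theorem smoothPer_near (s : SmoothPer) (η : ℝ) (hη : 0 < η) :
    ∀ᶠ s' in nhds s, ∀ Y, |s'.1 Y - s.1 Y| ≤ η := by
  have hcont : Continuous (fun ε : SmoothPer => UniformFun.ofFun (iteratedFDeriv ℝ 0 ε.1)) := by
    refine continuous_iInf_dom (i := 0) ?_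
    exact continuous_induced_dom
  have h1 := (UniformFun.tendsto_iff_tendstoUniformly.mp (hcont.tendsto s))
  have h2 := Metric.tendstoUniformly_iff.mp h1 η hη
  filter_upwards [h2] with s' hs' Y
  have h3 := hs' Y
  simp only [Function.comp, UniformFun.toFun_ofFun] at h3
  have h4 : |s'.1 Y - s.1 Y| ≤ dist (iteratedFDeriv ℝ 0 s.1 Y) (iteratedFDeriv ℝ 0 s'.1 Y) := by
    rw [dist_comm, dist_eq_norm]
    have h5 := (iteratedFDeriv ℝ 0 s'.1 Y - iteratedFDeriv ℝ 0 s.1 Y).le_opNorm (fun _ => 0)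
    simpa [iteratedFDeriv_zero_apply] using h5
  exact h4.trans h3.le

/-- **Main theorem.** For generic pairs `(ε, c)` in `C^∞(T³, ℝ) × ℝ`, and for every Lipschitz
periodic `ε` and almost every level `c`, the set of the directions which are not regular or
critical has Hausdorff dimension at most `5/3`. -/
theorem result :
    (∀ᶠ z in residual (SmoothPer × ℝ), dimH (Exc z.1.1 z.2 ∪ Crit z.1.1 z.2) ≤ 5 / 3) ∧
    (∀ ε : E3 → ℝ, IsPeriodic ε → (∃ K : NNReal, LipschitzWith K ε) →
      ∀ᵐ c : ℝ, dimH (Exc ε c ∪ Crit ε c) ≤ 5 / 3) := by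
  have key : ∀ (ε : E3 → ℝ) (c : ℝ), IsPeriodic ε → (∃ K : NNReal, LipschitzWith K ε) →
      FewDirty ε c → dimH (Exc ε c ∪ Crit ε c) ≤ 5 / 3 := by
    intro ε c hper hlip h
    obtain ⟨K, hK⟩ := hlip
    rw [dimH_union]
    exact max_le (exc_dim hper hK (fun i => (h.dim i).1))
      (crit_dim hper hK (fun i => (h.dim i).1) (fun i => (h.dim i).2))
  refine ⟨?_, ?_⟩
  · have h1 : ∀ s : SmoothPer, IsPeriodic s.1 := fun s => s.2.2
    have h2 : ∀ s : SmoothPer, ∃ K : NNReal, LipschitzWith K s.1 := fun s =>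
      lipschitz_of_contDiff (s.2.1.of_le (by exact_mod_cast le_top)) s.2.2
    have h3 : ∀ s : SmoothPer, ∀ η > 0, ∀ᶠ s' in nhds s, ∀ Y, |s'.1 Y - s.1 Y| ≤ η :=
      fun s η hη => smoothPer_near s η hη
    filter_upwards [residual_fewDirty (fun s : SmoothPer => s.1) h1 h2 h3] with z hz
    exact key _ _ (h1 _) (h2 _) hz
  · intro ε hper hlip
    obtain ⟨K, hK⟩ := hlip
    filter_upwards [ae_fewDirty hper hK] with c hc
    exact key ε c hper ⟨K, hK⟩ hc

end Pool.Agent.Results.MP_590607_an.FiveThirds
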